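import Pool.Agent.L7lead.TC.Stm

set_option autoImplicit false

/-!
# Monomial changes of coordinates
-/

namespace Pool.Agent.L7h47.TC

open MvPolynomial Pool.Agent.N197.Pln Pool.Agent.L7lead.TC

noncomputable section

/-- the new exponent -/
def ex (p q r s : ℤ) (c : ℤ × ℤ) (m : Fin 2 →₀ ℕ) : Fin 2 →₀ ℕ :=
  Finsupp.equivFunOnFinite.symm ![((mat p q r s (expo m)).1 - c.1).toNat,
    ((mat p q r s (expo m)).2 - c.2).toNat]

theorem ex_zero (p q r s : ℤ) (c : ℤ × ℤ) (m : Fin 2 →₀ ℕ) :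
    ex p q r s c m 0 = ((mat p q r s (expo m)).1 - c.1).toNat := rfl

theorem ex_one (p q r s : ℤ) (c : ℤ × ℤ) (m : Fin 2 →₀ ℕ) :
    ex p q r s c m 1 = ((mat p q r s (expo m)).2 - c.2).toNat := rfl

/-- the polynomial in the new coordinates -/
def gg (p q r s : ℤ) (c : ℤ × ℤ) (f : MvPolynomial (Fin 2) ℂ) : MvPolynomial (Fin 2) ℂ :=
  ∑ m ∈ f.support, monomial (ex p q r s c m) (coeff m f)

variable {p q r s : ℤ} {c : ℤ × ℤ} {f : MvPolynomial (Fin 2) ℂ}

/-- the lower bounds for the exponents -/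
def Bd (p q r s : ℤ) (c : ℤ × ℤ) (f : MvPolynomial (Fin 2) ℂ) : Prop :=
  ∀ m ∈ f.support, c.1 ≤ (mat p q r s (expo m)).1 ∧ c.2 ≤ (mat p q r s (expo m)).2

theorem expo_ex {m : Fin 2 →₀ ℕ} (h : c.1 ≤ (mat p q r s (expo m)).1 ∧
    c.2 ≤ (mat p q r s (expo m)).2) : expo (ex p q r s c m) + c = mat p q r s (expo m) := by
  have h1 : ((ex p q r s c m 0 : ℕ) : ℤ) = (mat p q r s (expo m)).1 - c.1 := by
    rw [ex_zero, Int.toNat_of_nonneg (by linarith [h.1])]
  have h2 : ((ex p q r s c m 1 : ℕ) : ℤ) = (mat p q r s (expo m)).2 - c.2 := by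
    rw [ex_one, Int.toNat_of_nonneg (by linarith [h.2])]
  refine Prod.ext ?_ ?_
  · change ((ex p q r s c m 0 : ℕ) : ℤ) + c.1 = _
    rw [h1]
    ring
  · change ((ex p q r s c m 1 : ℕ) : ℤ) + c.2 = _
    rw [h2]
    ring

theorem mat_inj (hdet : p * s - q * r = 1 ∨ p * s - q * r = -1) {m m' : ℤ × ℤ}
    (h : mat p q r s m = mat p q r s m') : m = m' := by
  have h1 : p * m.1 + q * m.2 = p * m'.1 + q * m'.2 := congrArg Prod.fst h
  have h2 : r * m.1 + s * m.2 = r * m'.1 + s * m'.2 := congrArg Prod.snd h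
  have h3 : (p * s - q * r) * m.1 = (p * s - q * r) * m'.1 := by linear_combination s * h1 - q * h2
  have h4 : (p * s - q * r) * m.2 = (p * s - q * r) * m'.2 := by linear_combination p * h2 - r * h1
  rcases hdet with hd | hd
  · rw [hd] at h3 h4
    exact Prod.ext (by linarith) (by linarith)
  · rw [hd] at h3 h4
    exact Prod.ext (by linarith) (by linarith)

theorem expo_inj {m m' : Fin 2 →₀ ℕ} (h : expo m = expo m') : m = m' := by
  have h1 : (m 0 : ℤ) = m' 0 := congrArg Prod.fst h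
  have h2 : (m 1 : ℤ) = m' 1 := congrArg Prod.snd h
  ext i
  fin_cases i
  · exact_mod_cast h1
  · exact_mod_cast h2

theorem ex_inj (hdet : p * s - q * r = 1 ∨ p * s - q * r = -1) (hb : Bd p q r s c f)
    {m m' : Fin 2 →₀ ℕ} (hm : m ∈ f.support) (hm' : m' ∈ f.support)
    (h : ex p q r s c m = ex p q r s c m') : m = m' := by
  have h1 := expo_ex (hb m hm)
  have h2 := expo_ex (hb m' hm')
  rw [h] at h1
  exact expo_inj (mat_inj hdet (h1.symm.trans h2))

theorem coeff_gg (hdet : p * s - q * r = 1 ∨ p * s - q * r = -1) (hb : Bd p q r s c f)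
    {m : Fin 2 →₀ ℕ} (hm : m ∈ f.support) :
    coeff (ex p q r s c m) (gg p q r s c f) = coeff m f := by
  unfold gg
  rw [coeff_sum, Finset.sum_eq_single m]
  · rw [coeff_monomial, if_pos rfl]
  · intro m' hm' hne
    rw [coeff_monomial, if_neg fun h => hne (ex_inj hdet hb hm' hm h)]
  · intro h
    exact absurd hm h

theorem gg_ne_zero (hdet : p * s - q * r = 1 ∨ p * s - q * r = -1) (hb : Bd p q r s c f)
    (hf : f ≠ 0) : gg p q r s c f ≠ 0 := by
  obtain ⟨m, hm⟩ := (support_nonempty.2 hf)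
  intro h
  have h1 := coeff_gg hdet hb hm
  rw [h, coeff_zero] at h1
  exact (mem_support_iff.1 hm) h1.symm

theorem gg_support {m' : Fin 2 →₀ ℕ} (h : m' ∈ (gg p q r s c f).support) :
    ∃ m ∈ f.support, m' = ex p q r s c m := by
  classical
  have h1 := support_sum h
  obtain ⟨m, hm, h2⟩ := Finset.mem_biUnion.1 h1
  exact ⟨m, hm, Finset.mem_singleton.1 (support_monomial_subset h2)⟩

theorem aeval_two {Ω : Type} [Field Ω] [Algebra ℂ Ω] (X Y : Ω) (m : Fin 2 →₀ ℕ) (b : ℂ) :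
    aeval ![X, Y] (monomial m b) = algebraMap ℂ Ω b * (X ^ m 0 * Y ^ m 1) := by
  rw [aeval_monomial, Finsupp.prod_fintype _ _ fun i => pow_zero _, Fin.prod_univ_two]
  rfl

theorem aeval_gg (hb : Bd p q r s c f) {Ω : Type} [Field Ω] [Algebra ℂ Ω] {X Y : Ω} (hX : X ≠ 0)
    (hY : Y ≠ 0) : aeval ![X ^ p * Y ^ r, X ^ q * Y ^ s] f =
      X ^ c.1 * Y ^ c.2 * aeval ![X, Y] (gg p q r s c f) := by
  conv_lhs => rw [f.as_sum]
  unfold gg
  rw [map_sum, map_sum, Finset.mul_sum]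
  refine Finset.sum_congr rfl fun m hm => ?_
  rw [aeval_two, aeval_two]
  have h := expo_ex (hb m hm)
  have h1 : ((ex p q r s c m 0 : ℕ) : ℤ) + c.1 = p * m 0 + q * m 1 := congrArg Prod.fst h
  have h2 : ((ex p q r s c m 1 : ℕ) : ℤ) + c.2 = r * m 0 + s * m 1 := congrArg Prod.snd h
  have h3 : (X ^ p * Y ^ r) ^ m 0 * (X ^ q * Y ^ s) ^ m 1 =
      X ^ c.1 * Y ^ c.2 * (X ^ ex p q r s c m 0 * Y ^ ex p q r s c m 1) := by
    have e1 : X ^ c.1 * X ^ ex p q r s c m 0 = (X ^ p) ^ m 0 * (X ^ q) ^ m 1 := by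
      rw [← zpow_natCast X, ← zpow_natCast (X ^ p), ← zpow_natCast (X ^ q), ← zpow_mul,
        ← zpow_mul, ← zpow_add₀ hX, ← zpow_add₀ hX]
      congr 1
      linarith
    have e2 : Y ^ c.2 * Y ^ ex p q r s c m 1 = (Y ^ r) ^ m 0 * (Y ^ s) ^ m 1 := by
      rw [← zpow_natCast Y, ← zpow_natCast (Y ^ r), ← zpow_natCast (Y ^ s), ← zpow_mul,
        ← zpow_mul, ← zpow_add₀ hY, ← zpow_add₀ hY]
      congr 1
      linarith
    calc (X ^ p * Y ^ r) ^ m 0 * (X ^ q * Y ^ s) ^ m 1 =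
        ((X ^ p) ^ m 0 * (X ^ q) ^ m 1) * ((Y ^ r) ^ m 0 * (Y ^ s) ^ m 1) := by
          rw [mul_pow, mul_pow]
          ring
      _ = _ := by
          rw [← e1, ← e2]
          ring
  rw [h3]
  ring

/-- a bound that always holds -/
theorem exists_bd (p q r s : ℤ) (f : MvPolynomial (Fin 2) ℂ) : ∃ c : ℤ × ℤ, Bd p q r s c f := by
  refine ⟨(-∑ m ∈ f.support, |(mat p q r s (expo m)).1|,
    -∑ m ∈ f.support, |(mat p q r s (expo m)).2|), fun m hm => ⟨?_, ?_⟩⟩
  · have h1 := Finset.single_le_sum (f := fun m => |(mat p q r s (expo m)).1|)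
      (fun m _ => abs_nonneg _) hm
    have h2 := neg_abs_le (mat p q r s (expo m)).1
    change -∑ m ∈ f.support, |(mat p q r s (expo m)).1| ≤ _
    linarith
  · have h1 := Finset.single_le_sum (f := fun m => |(mat p q r s (expo m)).2|)
      (fun m _ => abs_nonneg _) hm
    have h2 := neg_abs_le (mat p q r s (expo m)).2
    change -∑ m ∈ f.support, |(mat p q r s (expo m)).2| ≤ _
    linarith

/-- the new coordinates are algebraically independent -/
theorem indep (hdet : p * s - q * r = 1 ∨ p * s - q * r = -1) {Ω : Type} [Field Ω] [Algebra ℂ Ω]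
    {X Y : Ω} (h : AlgebraicIndependent ℂ ![X, Y]) :
    AlgebraicIndependent ℂ ![X ^ p * Y ^ r, X ^ q * Y ^ s] := by
  have hX : X ≠ 0 := h.ne_zero 0
  have hY : Y ≠ 0 := h.ne_zero 1
  rw [algebraicIndependent_iff]
  intro F hF
  by_contra hne
  obtain ⟨c, hc⟩ := exists_bd p q r s F
  rw [aeval_gg hc hX hY] at hF
  have h1 : aeval ![X, Y] (gg p q r s c F) = 0 := by
    rcases mul_eq_zero.1 hF with h2 | h2
    · exact absurd h2 (mul_ne_zero (zpow_ne_zero _ hX) (zpow_ne_zero _ hY))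
    · exact h2
  exact gg_ne_zero hdet hc hne ((algebraicIndependent_iff.1 h) _ h1)

theorem exists_div {ι : Type} [Fintype ι] {n : ℕ} [NeZero n] {a : ι → ZMod n} {c : ι → ℤ}
    (h : ∑ i, (c i : ZMod n) * a i = 0) : ∃ A : ℤ, ∑ i, c i * ((a i).val : ℤ) = A * n := by
  have h1 : ((∑ i, c i * ((a i).val : ℤ) : ℤ) : ZMod n) = 0 := by
    push_cast
    rw [← h]
    refine Finset.sum_congr rfl fun i _ => ?_
    rw [ZMod.natCast_zmod_val]
  obtain ⟨A, hA⟩ := (ZMod.intCast_zmod_eq_zero_iff_dvd _ n).1 h1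
  exact ⟨A, by rw [hA, mul_comm]⟩

theorem prod_zpow_sum {ι Ω : Type} [Field Ω] {X : Ω} (hX : X ≠ 0) (t : Finset ι) (e : ι → ℤ) :
    ∏ i ∈ t, X ^ e i = X ^ ∑ i ∈ t, e i := by
  classical
  induction t using Finset.induction_on with
  | empty => simp
  | insert i t hi ih => rw [Finset.prod_insert hi, Finset.sum_insert hi, zpow_add₀ hX, ih]

/-- **S_MON** -/
theorem s_MON : S_MON := by
  intro ι _ n _ f a p q r s c hf hdet hb h1 h2
  refine ⟨fun i => gg p q r s (c i) (f i), fun i => gg_ne_zero hdet (hb i) (hf i),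
    fun i m' hm' => ?_, ?_⟩
  · obtain ⟨m, hm, rfl⟩ := gg_support hm'
    exact ⟨m, hm, expo_ex (hb i m hm)⟩
  · rintro ⟨Ω, _, _, K₁, K₂, hK, X, hX, Y, hY, Z, hZ, hind, hval⟩
    obtain ⟨A, hA⟩ := exists_div h1
    obtain ⟨B, hB⟩ := exists_div h2
    have hX0 : X ≠ 0 := hind.ne_zero 0
    have hY0 : Y ≠ 0 := hind.ne_zero 1
    refine ⟨Ω, inferInstance, inferInstance, K₁, K₂, hK, X ^ p * Y ^ r,
      mul_mem (zpow_mem hX _) (zpow_mem hY _), X ^ q * Y ^ s,
      mul_mem (zpow_mem hX _) (zpow_mem hY _), X ^ A * Y ^ B * Z,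
      mul_mem (mul_mem (zpow_mem hX _) (zpow_mem hY _)) hZ, indep hdet hind, ?_⟩
    have e1 : (X ^ A) ^ n = ∏ i, (X ^ (c i).1) ^ (a i).val := by
      have : ∀ i, (X ^ (c i).1) ^ (a i).val = X ^ ((c i).1 * ((a i).val : ℤ)) := fun i => by
        rw [← zpow_natCast, ← zpow_mul]
      rw [Finset.prod_congr rfl fun i _ => this i, ← zpow_natCast, ← zpow_mul, ← hA,
        prod_zpow_sum hX0]
    have e2 : (Y ^ B) ^ n = ∏ i, (Y ^ (c i).2) ^ (a i).val := by
      have : ∀ i, (Y ^ (c i).2) ^ (a i).val = Y ^ ((c i).2 * ((a i).val : ℤ)) := fun i => by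
        rw [← zpow_natCast, ← zpow_mul]
      rw [Finset.prod_congr rfl fun i _ => this i, ← zpow_natCast, ← zpow_mul, ← hB,
        prod_zpow_sum hY0]
    rw [mul_pow, mul_pow, e1, e2, hval, ← Finset.prod_mul_distrib, ← Finset.prod_mul_distrib]
    refine Finset.prod_congr rfl fun i _ => ?_
    rw [aeval_gg (hb i) hX0 hY0, mul_pow, mul_pow]

/-- **S_SUB** -/
theorem s_SUB : S_SUB := by
  intro ι _ n _ f a p _ hp
  rintro ⟨Ω, _, _, K₁, K₂, hK, x, hx, y, hy, z, hz, hind, hval⟩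
  have hex : ∀ i, ∃ c : ℂ, ¬ p i → aeval ![x, y] (f i) ^ (a i).val = algebraMap ℂ Ω c := by
    intro i
    by_cases h : p i
    · exact ⟨1, fun h' => absurd h h'⟩
    · rcases hp i h with h0 | ⟨c, -, hc⟩
      · refine ⟨1, fun _ => ?_⟩
        rw [h0, ZMod.val_zero, pow_zero, map_one]
      · refine ⟨c ^ (a i).val, fun _ => ?_⟩
        rw [hc, aeval_C, map_pow]
  choose c hc using hex
  obtain ⟨w, hw⟩ := IsAlgClosed.exists_pow_nat_eq (∏ i ∈ Finset.univ.filter (fun i => ¬ p i), c i)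
    (Nat.pos_of_ne_zero (NeZero.ne n))
  refine ⟨Ω, inferInstance, inferInstance, K₁, K₂, hK, x, hx, y, hy, z * algebraMap ℂ Ω w,
    mul_mem hz (algebraMap_mem _ _), hind, ?_⟩
  rw [mul_pow, hval, ← map_pow, hw, map_prod,
    ← Finset.prod_filter_mul_prod_filter_not Finset.univ p]
  congr 1
  · exact (Finset.prod_subtype (Finset.univ.filter p) (by simp)
      (fun i => aeval ![x, y] (f i) ^ (a i).val)).symm
  · refine Finset.prod_congr rfl fun i hi => ?_
    rw [hc i (Finset.mem_filter.1 hi).2]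

end

end Pool.Agent.L7h47.TC
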